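import Pool.Agent.helper70.BND.SpecH

set_option autoImplicit false

open scoped Topology
open Finset

namespace Pool.Agent.BND.EX

theorem DLF_hw (h : ℕ → ℕ) (w : List (ℕ × ℝ)) (a : ℕ × ℝ) (ha : a ∈ w) : h a.1 ≤ hw h w := by
  induction w with
  | nil => cases ha
  | cons b w ih =>
    rw [hw_cons]
    rcases List.mem_cons.1 ha with rfl | ha
    · exact Nat.le_add_right _ _
    · exact (ih ha).trans (Nat.le_add_left _ _)

theorem DLF_Sj (J : ℕ) (s : ℝ) (hs : s ∈ Sj J) : s ∈ U := by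
  obtain ⟨j, hj, rfl⟩ := hs
  refine ⟨by positivity, ?_⟩
  have h : (j : ℝ) ≤ J := by exact_mod_cast hj
  exact div_le_one_of_le₀ h (Nat.cast_nonneg _)

theorem DLF_iff (N J : ℕ) (a : ℕ × ℝ) : a ∈ Dl N J ↔ a.1 < N ∧ a.2 ∈ Sj J := by
  obtain ⟨e, s⟩ := a
  unfold Dl Sj
  simp only [List.mem_flatMap, List.mem_range, List.mem_map, List.pure_def, List.bind_eq_flatMap,
    List.mem_cons, List.not_mem_nil, or_false, Set.mem_ofPred_eq, Prod.mk.injEq]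
  constructor
  · rintro ⟨e', he', x, ⟨j, hj, rfl⟩, rfl, rfl⟩
    exact ⟨he', j, by omega, rfl⟩
  · rintro ⟨he, j, hj, rfl⟩
    exact ⟨e, he, (j : ℝ), ⟨j, by omega, rfl⟩, rfl, rfl⟩

theorem DLF_mem (N J e : ℕ) (s : ℝ) (he : e < N) (hs : s ∈ Sj J) : (e, s) ∈ Dl N J :=
  (DLF_iff N J (e, s)).2 ⟨he, hs⟩

theorem DLF_0 (J : ℕ) : (0 : ℝ) ∈ Sj J := ⟨0, Nat.zero_le _, by simp⟩

theorem DLF : DLF_stmt := by
  intro N J
  refine ⟨fun a ha => ?_, fun e s he hs => DLF_mem N J e s he hs, ?_, DLF_0 J, DLF_Sj J, fun hJ => ?_,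
    fun hJ t ht => ?_, fun h e he => ?_⟩
  · have h := (DLF_iff N J a).1 ha
    exact ⟨h.1, DLF_Sj J _ h.2, h.2⟩
  · have h : Sj J ⊆ (fun j : ℕ => (j : ℝ) / J) '' (Set.Iic J) := by
      rintro s ⟨j, hj, rfl⟩
      exact ⟨j, hj, rfl⟩
    exact ((Set.finite_Iic J).image _).subset h
  · refine ⟨J, le_rfl, ?_⟩
    have : (J : ℝ) ≠ 0 := by positivity
    rw [div_self this]
  · have hJ0 : (0 : ℝ) < J := by exact_mod_cast hJ
    have h1 : 0 ≤ t * J := mul_nonneg ht.1 hJ0.le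
    refine ⟨(⌊t * J⌋₊ : ℝ) / J, ⟨⌊t * J⌋₊, ?_, rfl⟩, ?_⟩
    · have h2 : t * J ≤ J := by
        have := mul_le_mul_of_nonneg_right ht.2 hJ0.le
        linarith
      have h3 : ⌊t * J⌋₊ ≤ ⌊(J : ℝ)⌋₊ := Nat.floor_le_floor h2
      rwa [Nat.floor_natCast] at h3
    · have h2 := Nat.floor_le h1
      have h3 := Nat.lt_floor_add_one (t * J)
      have h4 : t - (⌊t * J⌋₊ : ℝ) / J = (t * J - ⌊t * J⌋₊) / J := by
        field_simp
      rw [h4, abs_div, abs_of_nonneg (by linarith), abs_of_pos hJ0]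
      exact div_le_div_of_nonneg_right (by linarith) hJ0.le
  · exact DLF_hw h _ (e, 0) (DLF_mem N J e 0 he (DLF_0 J))

end Pool.Agent.BND.EX
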